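import Pool.Agent.U725.ED.Tiles

/-!
The dynamical degrees `δ 0, ..., δ n` of a dominant rational self-map of degree `deg`, given by a
predicate `P p δ` which determines `δ`, and the intervals where `δ p / lam ^ p` is maximal.
-/

set_option autoImplicit false

namespace Pool.Agent.U725.ED

open Finset

variable {ι : Type*} [Fintype ι] [DecidableEq ι] {n : ℕ} {lam k : ι → ℕ} {P : ℕ → ℝ → Prop}
  {deg : ℕ}

theorem main_abs [Nonempty ι] (hP : ∀ p a b, P p a → P p b → a = b) (hlam : ∀ t, 1 ≤ lam t)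
    (hinj : Function.Injective lam)
    (H : ∀ t, ∃ δ : ℕ → ℝ, (∀ p ≤ n, 1 ≤ δ p ∧ P p (δ p)) ∧ δ 0 = 1 ∧ δ n = deg ∧
      ∃ q, q + k t ≤ n ∧ ∀ i ≤ k t, ∀ p ≤ n,
        δ p / (lam t : ℝ) ^ p ≤ δ (q + i) / (lam t : ℝ) ^ (q + i)) :
    ∑ t, k t ≤ n ∧ (∑ t, k t = n →
      (∀ p ≤ n, P p (∏ t, (lam t : ℝ) ^ min (k t) (p - ∑ u with lam t < lam u, k u))) ∧
      deg = ∏ t, lam t ^ k t) := by
  choose δs h1 h2 h3 q hq h4 using H
  obtain ⟨t0⟩ := ‹Nonempty ι›
  have hu : ∀ t, ∀ p ≤ n, δs t p = δs t0 p := fun t p hp =>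
    hP p _ _ (h1 t p hp).2 (h1 t0 p hp).2
  have hpos : ∀ p ≤ n, 0 < δs t0 p := fun p hp => by
    have := (h1 t0 p hp).1
    linarith
  have hpl : ∀ t, Plateau n (δs t0) (lam t) (q t) (k t) := by
    intro t
    refine ⟨hq t, fun i hi p hp => ?_⟩
    have h5 := h4 t i hi p hp
    have h6 := hq t
    rwa [hu t p hp, hu t (q t + i) (by omega)] at h5
  refine ⟨sum_le hpos hlam hinj hpl, fun hs => ⟨fun p hp => ?_, ?_⟩⟩
  · rw [← value hpos (h2 t0) hlam hinj hpl hs hp]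
    exact (h1 t0 p hp).2
  · have h5 := value hpos (h2 t0) hlam hinj hpl hs le_rfl
    rw [h3 t0] at h5
    have h6 : ∀ t, min (k t) (n - ∑ u with lam t < lam u, k u) = k t := by
      intro t
      have h7 := start_eq hpos hlam hinj hpl hs t
      have h8 := hq t
      omega
    simp only [h6] at h5
    exact_mod_cast h5

/-- the same with one more index with `lam = 1` -/
theorem main_opt {s : ℕ} {lam k : Fin s → ℕ} {j : ℕ} (hP : ∀ p a b, P p a → P p b → a = b)
    (hlam : ∀ t, 2 ≤ lam t) (hinj : Function.Injective lam)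
    (H0 : ∃ δ : ℕ → ℝ, (∀ p ≤ n, 1 ≤ δ p ∧ P p (δ p)) ∧ δ 0 = 1 ∧ δ n = deg ∧
      ∃ q, q + j ≤ n ∧ ∀ i ≤ j, ∀ p ≤ n,
        δ p / ((1 : ℕ) : ℝ) ^ p ≤ δ (q + i) / ((1 : ℕ) : ℝ) ^ (q + i))
    (H : ∀ t, ∃ δ : ℕ → ℝ, (∀ p ≤ n, 1 ≤ δ p ∧ P p (δ p)) ∧ δ 0 = 1 ∧ δ n = deg ∧
      ∃ q, q + k t ≤ n ∧ ∀ i ≤ k t, ∀ p ≤ n,
        δ p / (lam t : ℝ) ^ p ≤ δ (q + i) / (lam t : ℝ) ^ (q + i)) :
    j + ∑ t, k t ≤ n ∧ (j + ∑ t, k t = n →
      (∀ p ≤ n, P p (∏ t, (lam t : ℝ) ^ min (k t) (p - ∑ u with lam t < lam u, k u))) ∧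
      deg = ∏ t, lam t ^ k t) := by
  classical
  let lam' : Option (Fin s) → ℕ := fun t => t.elim 1 lam
  let k' : Option (Fin s) → ℕ := fun t => t.elim j k
  have hl : ∀ t, 1 ≤ lam' t := by
    rintro (_ | t)
    · exact le_rfl
    · have := hlam t
      change 1 ≤ lam t
      omega
  have hi : Function.Injective lam' := by
    rintro (_ | t) (_ | u) h
    · rfl
    · have := hlam u
      change 1 = lam u at h
      omega
    · have := hlam t
      change lam t = 1 at h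
      omega
    · exact congrArg some (hinj h)
  have key := main_abs (P := P) (deg := deg) (n := n) (lam := lam') (k := k') hP hl hi (by
    rintro (_ | t)
    · exact H0
    · exact H t)
  rw [Fintype.sum_option] at key
  have e : ∀ t : Fin s, (∑ u with lam' (some t) < lam' u, k' u) = ∑ u with lam t < lam u, k u := by
    intro t
    rw [Finset.sum_filter, Fintype.sum_option, Finset.sum_filter]
    have h0 : ¬ lam' (some t) < lam' none := by
      have := hlam t
      change ¬ lam t < 1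
      omega
    rw [if_neg h0, zero_add]
    rfl
  have e2 : ∀ p, (∏ t, (lam' t : ℝ) ^ min (k' t) (p - ∑ u with lam' t < lam' u, k' u)) =
      ∏ t, (lam t : ℝ) ^ min (k t) (p - ∑ u with lam t < lam u, k u) := by
    intro p
    rw [Fintype.prod_option]
    have h1 : (lam' none : ℝ) = 1 := by
      change ((1 : ℕ) : ℝ) = 1
      exact Nat.cast_one
    rw [h1, one_pow, one_mul]
    refine Finset.prod_congr rfl fun t _ => ?_
    rw [e t]
    rfl
  have e3 : (∏ t, lam' t ^ k' t) = ∏ t, lam t ^ k t := by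
    rw [Fintype.prod_option]
    have h1 : lam' none = 1 := rfl
    rw [h1, one_pow, one_mul]
    rfl
  simp only [e2, e3] at key
  exact key

end Pool.Agent.U725.ED
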