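import Mathlib

/-!
Sequences `δ 0, ..., δ n` of positive numbers and the sets where `δ p / lam ^ p` is maximal, for
different `lam`: these sets are intervals in our application, the larger `lam` come first, and the sum
of their lengths is at most `n`. If it is `n`, then all quotients `δ p / δ 0` are known.
-/

set_option autoImplicit false

namespace Pool.Agent.U725.ED

open Finset

/-- The maximal value of `δ p / lam ^ p`, `p ≤ n`, is attained for `p = q, ..., q + k`, and
`q + k ≤ n`. -/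
def Plateau (n : ℕ) (δ : ℕ → ℝ) (lam q k : ℕ) : Prop :=
  q + k ≤ n ∧ ∀ i ≤ k, ∀ p ≤ n, δ p / (lam : ℝ) ^ p ≤ δ (q + i) / (lam : ℝ) ^ (q + i)

theorem order {n : ℕ} {δ : ℕ → ℝ} (hδ : ∀ p ≤ n, 0 < δ p) {l m : ℕ} (hl : 1 ≤ l) (hlm : l < m)
    {a b : ℕ} (ha : a ≤ n) (hb : b ≤ n) (h1 : ∀ p ≤ n, δ p / (l : ℝ) ^ p ≤ δ a / (l : ℝ) ^ a)
    (h2 : ∀ p ≤ n, δ p / (m : ℝ) ^ p ≤ δ b / (m : ℝ) ^ b) : b ≤ a := by
  by_contra hlt
  push Not at hlt
  obtain ⟨d, rfl⟩ : ∃ d, b = a + d := ⟨b - a, by omega⟩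
  have hd : d ≠ 0 := by omega
  have hl0 : (0 : ℝ) < l := by exact_mod_cast (by omega : 0 < l)
  have hm0 : (0 : ℝ) < m := by exact_mod_cast (by omega : 0 < m)
  have e1 := h1 (a + d) hb
  have e2 := h2 a ha
  rw [div_le_div_iff₀ (pow_pos hl0 _) (pow_pos hl0 _), pow_add] at e1
  rw [div_le_div_iff₀ (pow_pos hm0 _) (pow_pos hm0 _), pow_add] at e2
  have e3 : δ (a + d) ≤ δ a * (l : ℝ) ^ d := by
    have h : δ (a + d) * (l : ℝ) ^ a ≤ (δ a * (l : ℝ) ^ d) * (l : ℝ) ^ a := by linarith
    exact le_of_mul_le_mul_right h (pow_pos hl0 _)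
  have e4 : δ a * (m : ℝ) ^ d ≤ δ (a + d) := by
    have h : (δ a * (m : ℝ) ^ d) * (m : ℝ) ^ a ≤ δ (a + d) * (m : ℝ) ^ a := by linarith
    exact le_of_mul_le_mul_right h (pow_pos hm0 _)
  have e5 : (m : ℝ) ^ d ≤ (l : ℝ) ^ d := le_of_mul_le_mul_left (e4.trans e3) (hδ a ha)
  have e6 : (l : ℝ) ^ d < (m : ℝ) ^ d := pow_lt_pow_left₀ (by exact_mod_cast hlm) hl0.le hd
  linarith

theorem Plateau.before {n : ℕ} {δ : ℕ → ℝ} (hδ : ∀ p ≤ n, 0 < δ p) {l m q k q' k' : ℕ}
    (hl : 1 ≤ l) (hlm : l < m) (h1 : Plateau n δ l q k) (h2 : Plateau n δ m q' k') :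
    q' + k' ≤ q := by
  have h3 := h1.1
  refine order hδ hl hlm (by omega) h2.1 ?_ (h2.2 k' le_rfl)
  have h4 := h1.2 0 (Nat.zero_le _)
  simpa using h4

theorem Plateau.step {n : ℕ} {δ : ℕ → ℝ} {l q k : ℕ} (hl : 1 ≤ l) (h : Plateau n δ l q k) {p : ℕ}
    (hp : q ≤ p) (hp' : p < q + k) : δ (p + 1) = l * δ p := by
  have hq := h.1
  have hl0 : (0 : ℝ) < l := by exact_mod_cast (by omega : 0 < l)
  obtain ⟨i, rfl⟩ : ∃ i, p = q + i := ⟨p - q, by omega⟩
  have e1 := h.2 i (by omega) (q + i + 1) (by omega)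
  have e2 := h.2 (i + 1) (by omega) (q + i) (by omega)
  rw [← add_assoc] at e2
  have e3 := le_antisymm e1 e2
  rw [div_eq_div_iff (pow_pos hl0 _).ne' (pow_pos hl0 _).ne', pow_succ] at e3
  have e4 : (δ (q + i + 1)) * (l : ℝ) ^ (q + i) = (l * δ (q + i)) * (l : ℝ) ^ (q + i) := by
    rw [e3]; ring
  exact mul_right_cancel₀ (pow_pos hl0 _).ne' e4

variable {ι : Type*} [Fintype ι] [DecidableEq ι] {n : ℕ} {δ : ℕ → ℝ} {lam q k : ι → ℕ}

theorem disj (hδ : ∀ p ≤ n, 0 < δ p) (hlam : ∀ t, 1 ≤ lam t) (hinj : Function.Injective lam)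
    (h : ∀ t, Plateau n δ (lam t) (q t) (k t)) :
    ∀ t ∈ (univ : Finset ι), ∀ u ∈ (univ : Finset ι), t ≠ u →
      Disjoint (Ico (q t) (q t + k t)) (Ico (q u) (q u + k u)) := by
  intro t _ u _ htu
  rw [Finset.disjoint_left]
  intro x hx hx'
  rw [Finset.mem_Ico] at hx hx'
  rcases lt_trichotomy (lam t) (lam u) with h1 | h1 | h1
  · have := Plateau.before hδ (hlam t) h1 (h t) (h u)
    omega
  · exact htu (hinj h1)
  · have := Plateau.before hδ (hlam u) h1 (h u) (h t)
    omega

theorem union_sub (h : ∀ t, Plateau n δ (lam t) (q t) (k t)) :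
    (univ : Finset ι).biUnion (fun t => Ico (q t) (q t + k t)) ⊆ range n := by
  intro x hx
  rw [Finset.mem_biUnion] at hx
  obtain ⟨t, -, hx⟩ := hx
  rw [Finset.mem_Ico] at hx
  have := (h t).1
  rw [Finset.mem_range]
  omega

theorem card_union (hδ : ∀ p ≤ n, 0 < δ p) (hlam : ∀ t, 1 ≤ lam t)
    (hinj : Function.Injective lam) (h : ∀ t, Plateau n δ (lam t) (q t) (k t)) :
    ((univ : Finset ι).biUnion (fun t => Ico (q t) (q t + k t))).card = ∑ t, k t := by
  rw [Finset.card_biUnion (disj hδ hlam hinj h)]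
  refine Finset.sum_congr rfl fun t _ => ?_
  rw [Nat.card_Ico]
  omega

/-- the sum of the lengths is at most `n` -/
theorem sum_le (hδ : ∀ p ≤ n, 0 < δ p) (hlam : ∀ t, 1 ≤ lam t)
    (hinj : Function.Injective lam) (h : ∀ t, Plateau n δ (lam t) (q t) (k t)) :
    ∑ t, k t ≤ n := by
  have h1 := Finset.card_le_card (union_sub h)
  rwa [card_union hδ hlam hinj h, Finset.card_range] at h1

theorem union_eq (hδ : ∀ p ≤ n, 0 < δ p) (hlam : ∀ t, 1 ≤ lam t)
    (hinj : Function.Injective lam) (h : ∀ t, Plateau n δ (lam t) (q t) (k t))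
    (hs : ∑ t, k t = n) :
    (univ : Finset ι).biUnion (fun t => Ico (q t) (q t + k t)) = range n := by
  refine Finset.eq_of_subset_of_card_le (union_sub h) ?_
  rw [card_union hδ hlam hinj h, Finset.card_range, hs]

/-- the beginnings of the intervals -/
theorem start_eq (hδ : ∀ p ≤ n, 0 < δ p) (hlam : ∀ t, 1 ≤ lam t)
    (hinj : Function.Injective lam) (h : ∀ t, Plateau n δ (lam t) (q t) (k t))
    (hs : ∑ t, k t = n) (t : ι) : q t = ∑ u with lam t < lam u, k u := by
  have hqt := (h t).1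
  have h1 : range (q t) = (univ.filter fun u => lam t < lam u).biUnion
      (fun u => Ico (q u) (q u + k u)) := by
    ext x
    rw [Finset.mem_range, Finset.mem_biUnion]
    constructor
    · intro hx
      have h2 : x ∈ (univ : Finset ι).biUnion (fun t => Ico (q t) (q t + k t)) := by
        rw [union_eq hδ hlam hinj h hs, Finset.mem_range]
        omega
      rw [Finset.mem_biUnion] at h2
      obtain ⟨u, -, hu⟩ := h2
      refine ⟨u, ?_, hu⟩
      rw [Finset.mem_filter]
      refine ⟨Finset.mem_univ _, ?_⟩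
      rw [Finset.mem_Ico] at hu
      by_contra hlt
      rcases lt_or_eq_of_le (not_lt.1 hlt) with h3 | h3
      · have := Plateau.before hδ (hlam u) h3 (h u) (h t)
        omega
      · have := hinj h3
        subst this
        omega
    · rintro ⟨u, hu, hx⟩
      rw [Finset.mem_filter] at hu
      rw [Finset.mem_Ico] at hx
      have := Plateau.before hδ (hlam t) hu.2 (h t) (h u)
      omega
  have h2 := congrArg Finset.card h1
  rw [Finset.card_range, Finset.card_biUnion
    (fun a ha b hb hab => disj hδ hlam hinj h a (Finset.mem_univ _) b (Finset.mem_univ _) hab)] at h2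
  rw [h2]
  refine Finset.sum_congr rfl fun u _ => ?_
  rw [Nat.card_Ico]
  omega

/-- all values are known if the sum of the lengths is `n` -/
theorem value (hδ : ∀ p ≤ n, 0 < δ p) (hδ0 : δ 0 = 1) (hlam : ∀ t, 1 ≤ lam t)
    (hinj : Function.Injective lam) (h : ∀ t, Plateau n δ (lam t) (q t) (k t))
    (hs : ∑ t, k t = n) {p : ℕ} (hp : p ≤ n) :
    δ p = ∏ t, (lam t : ℝ) ^ min (k t) (p - ∑ u with lam t < lam u, k u) := by
  have key : ∀ p ≤ n, δ p = ∏ t, (lam t : ℝ) ^ (Ico (q t) (q t + k t) ∩ range p).card := by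
    intro p
    induction p with
    | zero => intro _; simp [hδ0]
    | succ p ih =>
      intro hp
      have h1 : p ∈ (univ : Finset ι).biUnion (fun t => Ico (q t) (q t + k t)) := by
        rw [union_eq hδ hlam hinj h hs, Finset.mem_range]
        omega
      rw [Finset.mem_biUnion] at h1
      obtain ⟨u, -, hu⟩ := h1
      have hu' := Finset.mem_Ico.1 hu
      rw [(h u).step (hlam u) hu'.1 hu'.2, ih (by omega),
        ← Finset.mul_prod_erase univ _ (Finset.mem_univ u),
        ← Finset.mul_prod_erase univ (fun t => (lam t : ℝ) ^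
          (Ico (q t) (q t + k t) ∩ range (p + 1)).card) (Finset.mem_univ u), ← mul_assoc]
      congr 1
      · have h2 : Ico (q u) (q u + k u) ∩ range (p + 1) =
            insert p (Ico (q u) (q u + k u) ∩ range p) := by
          rw [Finset.range_add_one, Finset.inter_insert_of_mem hu]
        rw [h2, Finset.card_insert_of_notMem (by simp), pow_succ]
        ring
      · refine Finset.prod_congr rfl fun t ht => ?_
        have h2 : p ∉ Ico (q t) (q t + k t) := by
          intro h3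
          exact Finset.disjoint_left.1 (disj hδ hlam hinj h t (Finset.mem_univ _) u
            (Finset.mem_univ _) (Finset.ne_of_mem_erase ht)) h3 hu
        rw [Finset.range_add_one, Finset.inter_insert_of_notMem h2]
  rw [key p hp]
  refine Finset.prod_congr rfl fun t _ => ?_
  congr 1
  rw [← start_eq hδ hlam hinj h hs t]
  have h1 : Ico (q t) (q t + k t) ∩ range p = Ico (q t) (min (q t + k t) p) := by
    ext x
    simp only [Finset.mem_inter, Finset.mem_Ico, Finset.mem_range]
    omega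
  rw [h1, Nat.card_Ico]
  omega

end Pool.Agent.U725.ED
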